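import Pool.Agent.K3h1.SX.Stm
import Pool.Agent.K3h33.SX.BLIN
import Pool.Agent.K3h1.FC.CRIT

/-!
# Project SX: the main step
-/

set_option autoImplicit false
set_option linter.all false

open Polynomial IsDedekindDomain NumberField WithZero Pool.Agent.TH954

namespace Pool.Agent.K3h1.SX

open Pool.Agent.Y158.KL
open Pool.Agent.Y158.K2 (Dat)
open Pool.Agent.Y158.FQ (Qc)
open Pool.Agent.Y678.FQ (V_cop)

section

variable {K : Type} [Field K] [NumberField K] {ℓ : ℕ}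
  [hp : Fact ℓ.Prime] [hK : IsCyclotomicExtension {ℓ} ℚ K] {ζ : K} (hζ : IsPrimitiveRoot ζ ℓ)

/-- congruent to an integer modulo `ℓ` -/
def NI (t : Kl hζ) : Prop := ∃ n : ℤ, V hζ (t - (n : Kl hζ)) ≤ exp (-((ℓ - 1 : ℕ) : ℤ))

theorem ell_lt : exp (-((ℓ - 1 : ℕ) : ℤ)) < (1 : WithZero (Multiplicative ℤ)) := by
  rw [← exp_zero, exp_lt_exp]
  have := hp.out.two_le
  omega

variable {hζ}

theorem NI.neg {t : Kl hζ} (h : NI hζ t) : NI hζ (-t) := by
  obtain ⟨n, hn⟩ := h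
  refine ⟨-n, ?_⟩
  have e : -t - ((-n : ℤ) : Kl hζ) = -(t - n) := by push_cast; ring
  rw [e, Valuation.map_neg]
  exact hn

theorem NI.mul {t t' : Kl hζ} (h : NI hζ t) (h' : NI hζ t') (ht : V hζ t ≤ 1) :
    NI hζ (t * t') := by
  obtain ⟨n, hn⟩ := h
  obtain ⟨n', hn'⟩ := h'
  refine ⟨n * n', ?_⟩
  have e : t * t' - ((n * n' : ℤ) : Kl hζ) = t * (t' - n') + (t - n) * n' := by push_cast; ring
  rw [e]
  refine Valuation.map_add_le _ ?_ ?_
  · rw [map_mul]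
    exact (mul_le_of_le_one_left zero_le ht).trans hn'
  · rw [map_mul]
    exact (mul_le_of_le_one_right zero_le (V_intCast hζ n')).trans hn

/-- the integer is a unit -/
theorem not_dvd_of_near {t : Kl hζ} {n : ℤ} (ht : V hζ t = 1)
    (hn : V hζ (t - n) ≤ exp (-((ℓ - 1 : ℕ) : ℤ))) : ¬ (ℓ : ℤ) ∣ n := by
  intro h
  have h1 : V hζ ((n : ℤ) : Kl hζ) < 1 := (V_intCast_lt hζ).2 h
  have e : t = (t - n) + n := by ring
  have h2 : V hζ t < 1 := by
    rw [e]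
    exact Valuation.map_add_lt _ (hn.trans_lt ell_lt) h1
  exact absurd ht h2.ne

theorem V_int_dvd {m : ℤ} (k : ℤ) (h : m = ℓ * k) :
    V hζ (m : Kl hζ) ≤ exp (-((ℓ - 1 : ℕ) : ℤ)) := by
  rw [h]
  push_cast
  rw [map_mul, V_ell]
  exact mul_le_of_le_one_right zero_le (V_intCast hζ k)

theorem NI.inv {t : Kl hζ} (h : NI hζ t) (ht : V hζ t = 1) : NI hζ t⁻¹ := by
  obtain ⟨n, hn⟩ := h
  have h1 := not_dvd_of_near ht hn
  obtain ⟨a, b, hab⟩ : IsCoprime (ℓ : ℤ) n :=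
    (Prime.coprime_iff_not_dvd (Nat.prime_iff_prime_int.1 hp.out)).2 h1
  have ht0 : t ≠ 0 := by
    rintro rfl
    rw [map_zero] at ht
    exact zero_ne_one ht
  refine ⟨b, ?_⟩
  have e : t⁻¹ - (b : Kl hζ) = t⁻¹ * (((1 - b * n : ℤ) : Kl hζ) - b * (t - n)) := by
    push_cast
    field_simp
    ring
  rw [e, map_mul, map_inv₀, ht, inv_one, one_mul]
  refine Valuation.map_sub_le _ (V_int_dvd a (by linarith)) ?_
  rw [map_mul]
  exact (mul_le_of_le_one_left zero_le (V_intCast hζ b)).trans hn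

variable (hζ)
variable {L : Type} [Field L] [Algebra K L]

/-- the classes of the quotients -/
theorem cls0 (hodd : Odd ℓ) (hkum : Kum ℓ K L)
    (hdat : Dat hζ L) {x z : L} {ε : (𝓞 K)ˣ}
    (hz : z ≠ 0) (h : x ^ ℓ + 1 = oo K L ε * z ^ ℓ) (hne : ∀ i : ℕ, x + zl hζ L ^ i ≠ 0)
    (i j : ℕ) :
    ∃ (c : K) (g : L), c ≠ 0 ∧ g ≠ 0 ∧
      (x + zl hζ L ^ i) / (x + zl hζ L ^ j) = algebraMap K L c * g ^ ℓ ∧
      ∀ v : HeightOneSpectrum (𝓞 K), v ≠ lam hζ →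
        ∃ t : WithZero (Multiplicative ℤ), v.valuation K c = t ^ ℓ := by
  have hℓ := hp.out.pos
  have hdiff : ∀ a b : ℕ, zl hζ L ^ a ≠ zl hζ L ^ b →
      ∃ d : 𝓞 K, d ≠ 0 ∧ zl hζ L ^ a - zl hζ L ^ b = oo K L d ∧
        Associated (hζ.toInteger - 1) d := by
    intro a b hab
    have h1 : hζ.toInteger ^ a ≠ hζ.toInteger ^ b := by
      intro h2
      apply hab
      unfold zl
      rw [← map_pow, h2, map_pow]
    have h3 := diff_assoc hζ h1
    refine ⟨_, ?_, ?_, h3⟩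
    · exact sub_ne_zero.2 h1
    · unfold zl
      rw [map_sub, map_pow, map_pow]
  have hw0 : (x + zl hζ L ^ i) / (x + zl hζ L ^ j) ≠ 0 := div_ne_zero (hne i) (hne j)
  have hε0 : ((ε : (𝓞 K)ˣ) : 𝓞 K) ≠ 0 := ε.ne_zero
  obtain ⟨c, hc, g, hg⟩ := hkum _ hw0 (fun O hO => by
    refine fermat_local O hℓ hodd (zl_prim hζ) ?_ (ε := oo K L ε) ?_ hz h i j
    · intro a b hab
      obtain ⟨d, hd, h1, -⟩ := hdiff a b hab
      rw [h1]
      exact triv_val hO ((map_ne_zero_iff _ (FaithfulSMul.algebraMap_injective (𝓞 K) K)).2 hd)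
    · exact triv_val hO ((map_ne_zero_iff _ (FaithfulSMul.algebraMap_injective (𝓞 K) K)).2 hε0))
  have hg0 : g ≠ 0 := by
    rintro rfl
    rw [zero_pow hℓ.ne', mul_zero] at hg
    exact hw0 hg
  refine ⟨c, g, hc, hg0, hg, ?_⟩
  intro v hv
  obtain ⟨O, hO1, hO2⟩ := hdat v hv
  obtain ⟨t, ht0, ht⟩ := fermat_local O hℓ hodd (zl_prim hζ) (by
    intro a b hab
    obtain ⟨d, hd, h1, h2⟩ := hdiff a b hab
    rw [h1]
    exact hO1 _ (by rw [← lam_assoc h2, other_pi hζ hv])) (ε := oo K L ε)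
    (hO1 _ (val_unit v ε)) hz h i j
  rw [hg] at ht
  exact hO2 c g t hc hg0 ht0 ht

theorem V_pow_sub_le {a b : Kl hζ} (ha : V hζ a ≤ 1) (hb : V hζ b ≤ 1) (n : ℕ) :
    V hζ (a ^ n - b ^ n) ≤ V hζ (a - b) := by
  rw [← Commute.mul_geom_sum₂ (Commute.all a b) n, map_mul]
  refine mul_le_of_le_one_right zero_le ?_
  refine Valuation.map_sum_le _ fun i _ => ?_
  rw [map_mul, map_pow, map_pow]
  exact mul_le_one' (pow_le_one' ha _) (pow_le_one' hb _)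

theorem case1d (hℓ5 : 5 ≤ ℓ)
    (hirr : ℓ - 3 ∉ Pool.Agent.Y546.WQ.irr ℓ ∨
      ((Pool.Agent.Y546.WQ.irr ℓ).card + 1) * ((Pool.Agent.Y546.WQ.irr ℓ).card + 2) + 3 ≤ ℓ)
    (cy : Pool.Agent.Y546.WQ.Cyc ℓ K) (hcy : cy.z = ζ)
    (hkum : Kum ℓ K L) (hdat : Dat hζ L) (P0 : Plc K L (Kl hζ))
    {x z : L} (hz : z ≠ 0) (h : x ^ ℓ + 1 = z ^ ℓ) {x' z' : Kl hζ}
    (hx' : P0.val x x') (hz' : P0.val z z') (hVx : V hζ x' = 1)
    (hVz : V hζ z' = 1) (hn : NI hζ x') : V hζ (x' - 1) < 1 := by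
  have hodd : Odd ℓ := hp.out.odd_of_ne_two (by omega)
  have hell : exp (-((ℓ - 1 : ℕ) : ℤ)) < (1 : WithZero (Multiplicative ℤ)) := ell_lt
  set P := P0 with hP
  have h' : x ^ ℓ + 1 = oo K L ((1 : (𝓞 K)ˣ) : 𝓞 K) * z ^ ℓ := by
    rw [Units.val_one, map_one, one_mul, h]
  have hloc : x' ^ ℓ + 1 = z' ^ ℓ := by
    have h1 : P.val (x ^ ℓ + 1) (x' ^ ℓ + 1) := (hx'.pow ℓ).add Plc.val_one
    rw [h] at h1
    exact h1.unique (hz'.pow ℓ)
  have hVzk : ∀ k : ℕ, V hζ (zm hζ ^ k) = 1 := fun k => by rw [map_pow, V_zm, one_pow]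
  have hVk : ∀ k : ℕ, V hζ (x' + zm hζ ^ k) = 1 := by
    intro k
    apply le_antisymm (Valuation.map_add_le _ hVx.le (hVzk k).le)
    have h1 := V_pow_add hζ hVx.le (hVzk k).le hodd
    rw [← pow_mul, mul_comm k ℓ, pow_mul, (zm_prim hζ).pow_eq_one, one_pow, hloc, map_pow, hVz,
      one_pow] at h1
    exact h1
  have hne := ne_of_pow hodd (zl_prim hζ) (oo_ne (L := L) (Units.ne_zero 1)) hz h'
  have hvk : ∀ k : ℕ, P.val (x + zl hζ L ^ k) (x' + zm hζ ^ k) := fun k =>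
    hx'.add ((val_zm hζ).pow k)
  have hnz : ∀ k : ℕ, x' + zm hζ ^ k ≠ 0 := by
    intro k h1
    have := hVk k
    rw [h1, map_zero] at this
    exact zero_ne_one this
  obtain ⟨c, g, hc, hg0, hcg, hval⟩ := cls0 hζ hodd hkum hdat hz h' hne 1 0
  -- the local values
  obtain ⟨w', hw'⟩ : ∃ w' : Kl hζ, w' = (x' + zm hζ) / (x' + 1) := ⟨_, rfl⟩
  have hv : P.val ((x + zl hζ L ^ 1) / (x + zl hζ L ^ 0)) w' := by
    rw [hw', div_eq_mul_inv, div_eq_mul_inv]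
    have h1 := (hvk 1).mul ((hvk 0).inv (hnz 0))
    rw [pow_one (zm hζ), pow_zero (zm hζ)] at h1
    exact h1
  have hx1 : V hζ (x' + 1) = 1 := by
    have := hVk 0
    rwa [pow_zero] at this
  have hxz : V hζ (x' + zm hζ) = 1 := by
    have := hVk 1
    rwa [pow_one] at this
  have hx10 : x' + 1 ≠ 0 := by
    have := hnz 0
    rwa [pow_zero] at this
  have hVw : V hζ w' = 1 := by rw [hw', map_div₀, hx1, hxz, div_one]
  have hw0 : w' ≠ 0 := by
    intro h0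
    rw [h0, map_zero] at hVw
    exact zero_ne_one hVw
  rw [hcg] at hv
  have hcm0 : cm hζ c ≠ 0 := (map_ne_zero (cm hζ)).2 hc
  have hcval : P.val (algebraMap K L c) (cm hζ c) := Plc.val_alg _
  have hgℓ : P.val (g ^ ℓ) ((cm hζ c)⁻¹ * w') := by
    have h1 := (hcval.inv hcm0).mul hv
    rwa [← mul_assoc, inv_mul_cancel₀ ((map_ne_zero (algebraMap K L)).2 hc), one_mul] at h1
  have hgW : g ∈ P.W := Plc.mem_of_pow_mem hp.out.pos hgℓ.mem
  obtain ⟨g', hg'⟩ := Plc.val_of_mem hgW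
  have hgg : g' ^ ℓ = (cm hζ c)⁻¹ * w' := (hg'.pow ℓ).unique hgℓ
  have hw2 : w' = cm hζ c * g' ^ ℓ := by
    rw [hgg, ← mul_assoc, mul_inv_cancel₀ hcm0, one_mul]
  have hg'0 : g' ≠ 0 := by
    rintro rfl
    rw [zero_pow hp.out.ne_zero, mul_zero] at hw2
    exact hw0 hw2
  obtain ⟨k0, hk0⟩ := (lam hζ).valuation_surjective K (V hζ g')
  have hk0' : V hζ (cm hζ k0) = V hζ g' := by
    rw [← hk0]
    exact Vv_coe _ _
  have hk00 : cm hζ k0 ≠ 0 := by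
    intro h0
    rw [h0, map_zero] at hk0'
    exact (Valuation.ne_zero_iff _).2 hg'0 hk0'.symm
  obtain ⟨r, hr⟩ : ∃ r : Kl hζ, r = g' / cm hζ k0 := ⟨_, rfl⟩
  have hVr : V hζ r = 1 := by
    rw [hr, map_div₀, hk0', div_self ((Valuation.ne_zero_iff _).2 hg'0)]
  obtain ⟨a, ha⟩ := near_int (lam hζ) r hVr.le (ℓ - 1)
  change V hζ (r - om hζ a) ≤ exp (-((ℓ - 1 : ℕ) : ℤ)) at ha
  have hVa : V hζ (om hζ a) ≤ 1 := by
    have e : om hζ a = r - (r - om hζ a) := by ring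
    rw [e]
    exact Valuation.map_sub_le _ hVr.le (ha.trans hell.le)
  obtain ⟨e, he⟩ : ∃ e : K, e = c * (k0 * algebraMap (𝓞 K) K a) ^ ℓ := ⟨_, rfl⟩
  have hcme : cm hζ e = cm hζ c * (cm hζ k0) ^ ℓ * om hζ a ^ ℓ := by
    rw [he, map_mul, map_pow, map_mul, mul_pow, mul_assoc]
    rfl
  have hw3 : w' = cm hζ c * (cm hζ k0) ^ ℓ * r ^ ℓ := by
    rw [hw2, hr, div_pow, mul_assoc, mul_div_cancel₀ _ (pow_ne_zero _ hk00)]
  have hunit : V hζ (cm hζ c * (cm hζ k0) ^ ℓ) = 1 := by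
    have h1 := congrArg (V hζ) hw3
    rw [map_mul, map_pow, hVr, one_pow, mul_one, hVw] at h1
    exact h1.symm
  have hclose : V hζ (cm hζ e - w') ≤ exp (-((ℓ - 1 : ℕ) : ℤ)) := by
    have e1 : cm hζ e - w' = -(cm hζ c * (cm hζ k0) ^ ℓ * (r ^ ℓ - om hζ a ^ ℓ)) := by
      rw [hcme, hw3]; ring
    rw [e1, Valuation.map_neg, map_mul, hunit, one_mul]
    exact (V_pow_sub_le hζ hVr.le hVa ℓ).trans ha
  have hVe : V hζ (cm hζ e) = 1 := by
    have e1 : cm hζ e = w' - -(cm hζ e - w') := by ring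
    rw [e1, Valuation.map_sub_eq_of_lt_left _ (by
      rw [Valuation.map_neg, hVw]; exact hclose.trans_lt hell), hVw]
  -- the integers
  obtain ⟨n, hn1⟩ := hn
  have hn2 : V hζ ((x' + 1) - ((n + 1 : ℤ) : Kl hζ)) ≤ exp (-((ℓ - 1 : ℕ) : ℤ)) := by
    have e1 : (x' + 1) - ((n + 1 : ℤ) : Kl hζ) = x' - n := by push_cast; ring
    rw [e1]; exact hn1
  have hnd : ¬ (ℓ : ℤ) ∣ n := not_dvd_of_near hVx hn1
  have hnd1 : ¬ (ℓ : ℤ) ∣ n + 1 := not_dvd_of_near hx1 hn2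
  obtain ⟨a', b, hab⟩ : IsCoprime (ℓ : ℤ) (n + 1) :=
    (Prime.coprime_iff_not_dvd (Nat.prime_iff_prime_int.1 hp.out)).2 hnd1
  have hlin : V hζ (w' - (((n * b : ℤ) : Kl hζ) + ((b : ℤ) : Kl hζ) * zm hζ)) ≤
      exp (-((ℓ - 1 : ℕ) : ℤ)) := by
    have e1 : w' - (((n * b : ℤ) : Kl hζ) + ((b : ℤ) : Kl hζ) * zm hζ) =
        (x' + 1)⁻¹ * ((((1 - b * (n + 1) : ℤ) : Kl hζ)) * ((n : Kl hζ) + zm hζ) +
          (x' - n) * (1 - (b : Kl hζ) * ((n : Kl hζ) + zm hζ))) := by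
      rw [hw']
      push_cast
      field_simp
      ring
    have hzm1 : V hζ (zm hζ) ≤ 1 := by rw [V_zm]
    have hnz1 : V hζ ((n : Kl hζ) + zm hζ) ≤ 1 := Valuation.map_add_le _ (V_intCast hζ n) hzm1
    rw [e1, map_mul, map_inv₀, hx1, inv_one, one_mul]
    refine Valuation.map_add_le _ ?_ ?_
    · rw [map_mul]
      exact (mul_le_of_le_one_right zero_le hnz1).trans (V_int_dvd a' (by linarith))
    · rw [map_mul]
      refine (mul_le_of_le_one_right zero_le ?_).trans hn1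
      refine Valuation.map_sub_le _ (by rw [map_one]) ?_
      rw [map_mul]
      exact mul_le_one' (V_intCast hζ b) hnz1
  -- the global element
  have hzm : cm hζ ζ = zm hζ := rfl
  have hfin : (lam hζ).valuation K (e - (((n * b : ℤ) : K) + ((b : ℤ) : K) * cy.z)) ≤
      exp (-((ℓ - 1 : ℕ) : ℤ)) := by
    have h1 : V hζ (cm hζ (e - (((n * b : ℤ) : K) + ((b : ℤ) : K) * cy.z))) =
        (lam hζ).valuation K (e - (((n * b : ℤ) : K) + ((b : ℤ) : K) * cy.z)) := Vv_coe _ _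
    rw [← h1, map_sub, map_add, map_mul, map_intCast, map_intCast, hcy, hzm]
    have e1 : cm hζ e - (((n * b : ℤ) : Kl hζ) + ((b : ℤ) : Kl hζ) * zm hζ) =
        (cm hζ e - w') + (w' - (((n * b : ℤ) : Kl hζ) + ((b : ℤ) : Kl hζ) * zm hζ)) := by ring
    rw [e1]
    exact Valuation.map_add_le _ hclose hlin
  have hlamℓ : (lam hζ).valuation K (ℓ : K) = exp (-((ℓ - 1 : ℕ) : ℤ)) := by
    have h1 : V hζ (cm hζ (ℓ : K)) = (lam hζ).valuation K (ℓ : K) := Vv_coe _ _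
    rw [← h1, map_natCast, V_ell]
  obtain ⟨m, a1, hm, hma⟩ := Pool.Agent.K3h33.SX.t_BLIN ℓ K cy (lam hζ) (fun Q hQ => by
    by_contra hne
    exact Pool.Agent.Y158.GR.ell_notMem hζ hne hQ) hlamℓ e (n * b) b hfin
  have he0 : e ≠ 0 := by
    intro h0
    rw [h0, map_zero, map_zero] at hVe
    exact zero_ne_one hVe
  have hm0 : (m : K) ≠ 0 := by
    intro h0
    apply hm
    have : m = 0 := by exact_mod_cast h0
    rw [this]
    exact dvd_zero _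
  have hsum : ((n * b : ℤ) : ZMod ℓ) + ((b : ℤ) : ZMod ℓ) = 1 := by
    have h1 : (((n * b + b : ℤ)) : ZMod ℓ) = ((a' * ℓ + b * (n + 1) - a' * ℓ : ℤ) : ZMod ℓ) := by
      congr 1; ring
    rw [hab] at h1
    push_cast at h1 ⊢
    rw [h1, ZMod.natCast_self]
    ring
  have hcr := (Pool.Agent.K3h1.FC.main ℓ hℓ5 K cy
    (Polynomial.C m * (Polynomial.C (n * b) + Polynomial.C b * X) + Polynomial.C (ℓ : ℤ) * a1)
    m hm ((n * b : ℤ) : ZMod ℓ) ((b : ℤ) : ZMod ℓ) hsum (by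
      rw [Polynomial.map_add, Polynomial.map_mul, Polynomial.map_mul, Polynomial.map_add,
        Polynomial.map_mul, Polynomial.map_C, Polynomial.map_C, Polynomial.map_C, Polynomial.map_C,
        Polynomial.map_X]
      have h1 : (Int.castRingHom (ZMod ℓ)) (ℓ : ℤ) = 0 := by simp
      rw [h1]
      simp) (by
      rw [← hma]
      exact mul_ne_zero hm0 he0) (fun Q => by
      rw [← hma, map_mul]
      by_cases hQ : Q = lam hζ
      · refine ⟨0, ?_⟩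
        rw [mul_zero, exp_zero]
        congr 1
        rw [hQ]
        have h1 : V hζ (cm hζ e) = (lam hζ).valuation K e := Vv_coe _ _
        rw [← h1, hVe]
      · obtain ⟨t, ht⟩ := hval Q hQ
        have hk1 : k0 * algebraMap (𝓞 K) K a ≠ 0 := by
          intro h0
          apply he0
          rw [he, h0, zero_pow hp.out.ne_zero, mul_zero]
        obtain ⟨j, hj⟩ := exists_exp ((Q.valuation K).ne_zero_iff.2 hk1)
        have ht0 : t ≠ 0 := by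
          rintro rfl
          rw [zero_pow hp.out.ne_zero] at ht
          exact (Q.valuation K).ne_zero_iff.2 hc ht
        obtain ⟨i, hi⟩ := exists_exp ht0
        refine ⟨i + j, ?_⟩
        congr 1
        rw [he, map_mul, map_pow, ht, hj, hi, ← exp_nsmul, ← exp_nsmul, ← exp_add]
        congr 1
        simp only [nsmul_eq_mul]
        ring)).1 hirr
  have hb0 : ((b : ℤ) : ZMod ℓ) ≠ 0 := by
    intro h0
    rw [Int.cast_mul, h0, mul_zero, add_zero] at hsum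
    exact zero_ne_one hsum
  have hn0 : ((n : ℤ) : ZMod ℓ) ≠ 0 := by
    intro h0
    exact hnd ((ZMod.intCast_zmod_eq_zero_iff_dvd n ℓ).1 h0)
  have hA := hcr (by rw [Int.cast_mul]; exact mul_ne_zero hn0 hb0) hb0
  have hn1' : ((n : ℤ) : ZMod ℓ) = 1 := by
    rw [Int.cast_mul] at hA
    exact mul_right_cancel₀ hb0 (by rw [one_mul]; exact hA)
  have hdvd : (ℓ : ℤ) ∣ n - 1 := by
    rw [← ZMod.intCast_zmod_eq_zero_iff_dvd]
    push_cast
    rw [hn1', sub_self]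
  have h1 : V hζ ((n - 1 : ℤ) : Kl hζ) < 1 := (V_intCast_lt hζ).2 hdvd
  have e1 : x' - 1 = (x' - n) + ((n - 1 : ℤ) : Kl hζ) := by push_cast; ring
  rw [e1]
  exact Valuation.map_add_lt _ (hn1.trans_lt hell) h1

/-- the first case -/
theorem first5d (hℓ5 : 5 ≤ ℓ)
    (hirr : ℓ - 3 ∉ Pool.Agent.Y546.WQ.irr ℓ ∨
      ((Pool.Agent.Y546.WQ.irr ℓ).card + 1) * ((Pool.Agent.Y546.WQ.irr ℓ).card + 2) + 3 ≤ ℓ)
    (cy : Pool.Agent.Y546.WQ.Cyc ℓ K) (hcy : cy.z = ζ)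
    (hkum : Kum ℓ K L) (hdat : Dat hζ L) (P0 : Plc K L (Kl hζ))
    {x z : L} (h : x ^ ℓ + 1 = z ^ ℓ) {x' z' : Kl hζ}
    (hx' : P0.val x x') (hz' : P0.val z z') (hVx : V hζ x' = 1)
    (hVz : V hζ z' = 1) (hnx : NI hζ x') (hnz : NI hζ z') : False := by
  have hodd : Odd ℓ := hp.out.odd_of_ne_two (by omega)
  have hz'0 : z' ≠ 0 := by
    rintro rfl
    rw [map_zero] at hVz
    exact zero_ne_one hVz
  have hz : z ≠ 0 := by
    rintro rfl
    exact hz'0 (hz'.unique Plc.val_zero)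
  have hx'0 : x' ≠ 0 := by
    rintro rfl
    rw [map_zero] at hVx
    exact zero_ne_one hVx
  have hx : x ≠ 0 := by
    rintro rfl
    exact hx'0 (hx'.unique Plc.val_zero)
  have hloc : x' ^ ℓ + 1 = z' ^ ℓ := by
    have h1 : P0.val (x ^ ℓ + 1) (x' ^ ℓ + 1) := (hx'.pow ℓ).add Plc.val_one
    rw [h] at h1
    exact h1.unique (hz'.pow ℓ)
  have h1 := case1d hζ hℓ5 hirr cy hcy hkum hdat P0 hz h hx' hz' hVx hVz hnx
  have h2 := case1d hζ hℓ5 hirr cy hcy hkum hdat P0 (x := -z⁻¹) (z := x * z⁻¹) (x' := -z'⁻¹)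
    (z' := x' * z'⁻¹) (mul_ne_zero hx (inv_ne_zero hz)) (by
      rw [Odd.neg_pow hodd, mul_pow, inv_pow]
      have hzl : z ^ ℓ ≠ 0 := pow_ne_zero _ hz
      field_simp
      linear_combination -h) (by
      have := Plc.val_zero.sub (hz'.inv hz'0)
      rwa [zero_sub, zero_sub] at this) (hx'.mul (hz'.inv hz'0)) (by
      rw [Valuation.map_neg, map_inv₀, hVz, inv_one]) (by
      rw [map_mul, map_inv₀, hVx, hVz, inv_one, mul_one]) (hnz.inv hVz).neg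
  have h3 : V hζ (z' + 1) < 1 := by
    have e : z' + 1 = -z' * (-z'⁻¹ - 1) := by
      field_simp
      ring
    rw [e, map_mul, Valuation.map_neg, hVz, one_mul]
    exact h2
  have h4 : V hζ ((3 : ℤ) : Kl hζ) < 1 := by
    have e2 : ((3 : ℤ) : Kl hζ) = (z' ^ ℓ + 1 ^ ℓ) - (x' ^ ℓ - 1 ^ ℓ) := by
      rw [one_pow]
      push_cast
      linear_combination hloc
    rw [e2]
    refine Valuation.map_sub_lt _ ?_ ?_
    · exact lt_of_le_of_lt (V_pow_add hζ hVz.le (by rw [map_one]) hodd) h3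
    · exact lt_of_le_of_lt (V_pow_sub hζ hVx.le (by rw [map_one]) ℓ) h1
  rw [V_intCast_lt] at h4
  have h5 := Int.le_of_dvd (by norm_num) h4
  omega

end

/-- the main step -/
theorem coreAt (ℓ : ℕ) [hp : Fact ℓ.Prime] (K : Type) [Field K] [NumberField K]
    [IsCyclotomicExtension {ℓ} ℚ K] (ζ : K) (hζ : IsPrimitiveRoot ζ ℓ) (hℓ5 : 5 ≤ ℓ)
    (hirr : ℓ - 3 ∉ Pool.Agent.Y546.WQ.irr ℓ ∨
      ((Pool.Agent.Y546.WQ.irr ℓ).card + 1) * ((Pool.Agent.Y546.WQ.irr ℓ).card + 2) + 3 ≤ ℓ)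
    (cy : Pool.Agent.Y546.WQ.Cyc ℓ K) (hcy : cy.z = ζ) : CoreAt ℓ K ζ hζ := by
  intro L _ _ hkum hdat P X Y h hnX hnY
  have hodd : Odd ℓ := hp.out.odd_of_ne_two (by omega)
  have hℓ := hp.out.pos
  have hid : ∀ t : Kl hζ, algebraMap (Kl hζ) (Kl hζ) t = t := fun t => rfl
  by_cases hXW : X ∈ P.W
  swap
  · exact ⟨0, by rw [map_zero]; exact zero_lt_one, Or.inr (Or.inr (Plc.val_inv_of_notMem hXW))⟩
  obtain ⟨x', hx'⟩ := Plc.val_of_mem hXW
  have hYW : Y ∈ P.W := by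
    apply Plc.mem_of_pow_mem hℓ
    have e : Y ^ ℓ = 1 - X ^ ℓ := by linear_combination h
    rw [e]
    exact sub_mem (one_mem _) (pow_mem hXW _)
  obtain ⟨y', hy'⟩ := Plc.val_of_mem hYW
  have hloc : x' ^ ℓ + y' ^ ℓ = 1 := by
    have h1 : P.val (X ^ ℓ + Y ^ ℓ) (x' ^ ℓ + y' ^ ℓ) := (hx'.pow ℓ).add (hy'.pow ℓ)
    rw [h] at h1
    exact h1.unique Plc.val_one
  rcases lt_trichotomy (V hζ x') 1 with hlt | heq | hgt
  · exact ⟨x', hlt, Or.inl hx'⟩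
  · have hx0 : x' ≠ 0 := by
      rintro rfl
      rw [map_zero] at heq
      exact zero_ne_one heq
    have hy1 : V hζ y' ≤ 1 := by
      have e : y' ^ ℓ = 1 - x' ^ ℓ := by linear_combination hloc
      have h2 : V hζ (y' ^ ℓ) ≤ 1 := by
        rw [e]
        exact Valuation.map_sub_le _ (by rw [map_one]) (by rw [map_pow, heq, one_pow])
      rw [map_pow] at h2
      exact (pow_le_one_iff_of_nonneg zero_le hℓ.ne').1 h2
    rcases hy1.lt_or_eq with hy2 | hy2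
    · exact ⟨y', hy2, Or.inr (Or.inl hy')⟩
    · exfalso
      have hy0 : y' ≠ 0 := by
        rintro rfl
        rw [map_zero] at hy2
        exact zero_ne_one hy2
      have hY0 : Y ≠ 0 := by
        rintro rfl
        exact hy0 (hy'.unique Plc.val_zero)
      have hq : (X * Y⁻¹) ^ ℓ + 1 = (Y⁻¹) ^ ℓ := by
        rw [mul_pow, inv_pow]
        have : Y ^ ℓ ≠ 0 := pow_ne_zero _ hY0
        field_simp
        linear_combination h
      have hvx := hx'.mul (hy'.inv hy0)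
      have hvz := hy'.inv hy0
      have h5 : V hζ (x' * y'⁻¹) = 1 := by rw [map_mul, map_inv₀, heq, hy2, inv_one, one_mul]
      have h6 : V hζ y'⁻¹ = 1 := by rw [map_inv₀, hy2, inv_one]
      have hNx : NI hζ x' := hnX x' hx' heq.le
      have hNy : NI hζ y' := hnY y' hy' hy2.le
      exact first5d hζ hℓ5 hirr cy hcy hkum hdat P hq hvx hvz h5 h6
        (hNx.mul (hNy.inv hy2) heq.le) (hNy.inv hy2)
  · refine ⟨x'⁻¹, ?_, Or.inr (Or.inr (hx'.inv ?_))⟩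
    · rw [map_inv₀]
      exact inv_lt_one_of_one_lt₀ hgt
    · rintro rfl
      rw [map_zero] at hgt
      exact absurd hgt (not_lt.2 zero_le)

end Pool.Agent.K3h1.SX
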