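import Pool.Agent.K3h1.SX.Stm

/-!
# Project SX: elements of `K_λ` which are fixed by the automorphisms over `ℚ_ℓ`
-/

set_option autoImplicit false
set_option linter.all false

open Polynomial IsDedekindDomain NumberField WithZero

namespace Pool.Agent.K3h1.SX

open Pool.Agent.Y158.KL
open Pool.Agent.Y158.FQ (Qc)
open Pool.Agent.Y678.FQ (alg V_cop)

section

variable {K : Type} [Field K] [NumberField K] {ℓ : ℕ}
  [hp : Fact ℓ.Prime] [hK : IsCyclotomicExtension {ℓ} ℚ K] {ζ : K} (hζ : IsPrimitiveRoot ζ ℓ)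

theorem near_of_rat {q : ℚ} (hq : V hζ (algebraMap ℚ (Kl hζ) q) ≤ 1) :
    ∃ n : ℤ, V hζ (algebraMap ℚ (Kl hζ) q - (n : Kl hζ)) ≤ exp (-((ℓ - 1 : ℕ) : ℤ)) := by
  have hell : exp (-((ℓ - 1 : ℕ) : ℤ)) < (1 : WithZero (Multiplicative ℤ)) := by
    rw [← exp_zero, exp_lt_exp]
    have := hp.out.two_le
    omega
  have hden0 : ((q.den : ℤ) : Kl hζ) ≠ 0 := by
    have h1 : CharZero (Kl hζ) := charZero_of_injective_algebraMap (cm hζ).injective
    exact_mod_cast q.den_ne_zero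
  have hmul : algebraMap ℚ (Kl hζ) q * ((q.den : ℤ) : Kl hζ) = ((q.num : ℤ) : Kl hζ) := by
    have h := congrArg (algebraMap ℚ (Kl hζ)) (Rat.mul_den_eq_num q)
    rw [map_mul, map_natCast, map_intCast] at h
    rw [← h]
    push_cast
    rfl
  -- the denominator is prime to `ℓ`
  have hden : ¬ (ℓ : ℤ) ∣ (q.den : ℤ) := by
    intro hd
    have hnum : ¬ (ℓ : ℤ) ∣ q.num := by
      intro hn
      have h1 : ℓ ∣ q.num.natAbs := Int.natCast_dvd.1 hn
      have h2 : ℓ ∣ q.den := by exact_mod_cast hd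
      have h3 := Nat.dvd_gcd h1 h2
      rw [q.reduced] at h3
      exact hp.out.one_lt.ne' (Nat.dvd_one.1 h3)
    have h1 : V hζ ((q.num : ℤ) : Kl hζ) = 1 := V_cop hζ hnum
    obtain ⟨k, hk⟩ := hd
    have h2 : V hζ ((q.den : ℤ) : Kl hζ) < 1 := by
      rw [hk]
      push_cast
      rw [map_mul, V_ell]
      exact lt_of_le_of_lt (mul_le_of_le_one_right zero_le (V_intCast hζ k)) hell
    rw [← hmul, map_mul] at h1
    have h3 : V hζ (algebraMap ℚ (Kl hζ) q) * V hζ ((q.den : ℤ) : Kl hζ) < 1 :=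
      lt_of_le_of_lt (mul_le_of_le_one_left zero_le hq) h2
    exact absurd h1 h3.ne
  have hV1 : V hζ ((q.den : ℤ) : Kl hζ) = 1 := V_cop hζ hden
  obtain ⟨a, b, hab⟩ : IsCoprime (ℓ : ℤ) (q.den : ℤ) :=
    (Prime.coprime_iff_not_dvd (Nat.prime_iff_prime_int.1 hp.out)).2 hden
  refine ⟨q.num * b, ?_⟩
  have e : (algebraMap ℚ (Kl hζ) q - ((q.num * b : ℤ) : Kl hζ)) * ((q.den : ℤ) : Kl hζ) =
      (ℓ : Kl hζ) * ((q.num * a : ℤ) : Kl hζ) := by
    rw [sub_mul, hmul]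
    have h1 : ((a * ℓ + b * q.den : ℤ) : Kl hζ) = 1 := by rw [hab]; push_cast; rfl
    push_cast at h1 ⊢
    linear_combination (-(q.num : Kl hζ)) * h1
  have h2 := congrArg (V hζ) e
  rw [map_mul, map_mul, hV1, mul_one, V_ell] at h2
  rw [h2]
  exact mul_le_of_le_one_right zero_le (V_intCast hζ _)

theorem near_of_mem {t : Kl hζ} (ht : t ∈ Qc (lam hζ)) : Near hζ t := by
  intro hV
  have hell : exp (-((ℓ - 1 : ℕ) : ℤ)) < (1 : WithZero (Multiplicative ℤ)) := by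
    rw [← exp_zero, exp_lt_exp]
    have := hp.out.two_le
    omega
  have h1 : t ∈ closure (Set.range (algebraMap ℚ (Kl hζ))) := ht
  obtain ⟨g, hg⟩ := (lam hζ).valuation_surjective K (exp (-((ℓ - 1 : ℕ) : ℤ)))
  have hg' : Vv (lam hζ) (algebraMap K ((lam hζ).adicCompletion K) g) = exp (-((ℓ - 1 : ℕ) : ℤ)) := by
    rw [Vv_coe]; exact hg
  have h0 : IsOpen {z : (lam hζ).adicCompletion K | Valued.v.restrict (z - t) <
      Valued.v.restrict (algebraMap K ((lam hζ).adicCompletion K) g)} :=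
    (Valued.isOpen_ball ((lam hζ).adicCompletion K) _).preimage (continuous_id.sub continuous_const)
  have e : {z : (lam hζ).adicCompletion K | Vv (lam hζ) (z - t) < exp (-((ℓ - 1 : ℕ) : ℤ))} =
      {z : (lam hζ).adicCompletion K | Valued.v.restrict (z - t) <
        Valued.v.restrict (algebraMap K ((lam hζ).adicCompletion K) g)} := by
    ext z
    rw [Set.mem_ofPred_eq, Set.mem_ofPred_eq, Valuation.restrict_lt_iff]
    rw [← hg']
  have h2 : {z : (lam hζ).adicCompletion K | Vv (lam hζ) (z - t) < exp (-((ℓ - 1 : ℕ) : ℤ))} ∈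
      nhds t := by
    rw [e]
    refine h0.mem_nhds ?_
    rw [← e, Set.mem_ofPred_eq, sub_self, map_zero]
    exact zero_lt_iff.2 exp_ne_zero
  obtain ⟨y, hy1, ⟨q, rfl⟩⟩ := mem_closure_iff_nhds.1 h1 _ h2
  have hy : V hζ (algebraMap ℚ (Kl hζ) q - t) < exp (-((ℓ - 1 : ℕ) : ℤ)) := hy1
  have hq : V hζ (algebraMap ℚ (Kl hζ) q) ≤ 1 := by
    have e1 : algebraMap ℚ (Kl hζ) q = (algebraMap ℚ (Kl hζ) q - t) + t := by ring
    rw [e1]
    exact Valuation.map_add_le _ (hy.le.trans hell.le) hV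
  obtain ⟨n, hn⟩ := near_of_rat hζ hq
  refine ⟨n, ?_⟩
  have e2 : t - (n : Kl hζ) = (algebraMap ℚ (Kl hζ) q - (n : Kl hζ)) -
      (algebraMap ℚ (Kl hζ) q - t) := by ring
  rw [e2]
  exact Valuation.map_sub_le _ hn hy.le

end

theorem t_BNEAR : S_BNEAR := by
  intro ℓ hp K _ _ hK ζ hζ C _ _ hC t hτ
  haveI h1 : Algebra.IsAlgebraic (Qc (lam hζ)) (Kl hζ) := alg hζ
  haveI h2 : Algebra.IsAlgebraic (Kl hζ) C := hC.isAlgebraic
  haveI h3 : IsAlgClosed C := hC.isAlgClosed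
  haveI h4 : Algebra.IsAlgebraic (Qc (lam hζ)) C := Algebra.IsAlgebraic.trans _ (Kl hζ) _
  haveI h5 : IsAlgClosure (Qc (lam hζ)) C := ⟨h3, h4⟩
  haveI h6 : Normal (Qc (lam hζ)) C := IsAlgClosure.normal _ _
  haveI h7 : CharZero (Kl hζ) := charZero_of_injective_algebraMap (cm hζ).injective
  haveI h8 : IsGalois (Qc (lam hζ)) C := ⟨⟩
  have h9 : algebraMap (Kl hζ) C t ∈ (⊥ : IntermediateField (Qc (lam hζ)) C) := by
    rw [InfiniteGalois.mem_bot_iff_fixed]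
    intro τ
    exact hτ τ
  obtain ⟨q, hq⟩ := IntermediateField.mem_bot.1 h9
  have h10 : (q : Kl hζ) = t := (algebraMap (Kl hζ) C).injective hq
  rw [← h10]
  exact near_of_mem hζ q.2

end Pool.Agent.K3h1.SX
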