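import Pool.Agent.K3h1.SX.Gen

/-!
# Project SX: sections over `ℚ`
-/

set_option autoImplicit false
set_option linter.all false

open Polynomial FF Pool.Agent.Y157.PS Pool.Agent.TH954 IsDedekindDomain NumberField

namespace Pool.Agent.K3h1.SX

attribute [-instance] DivisionRing.toRatAlgebra
attribute [local instance 1] DivisionRing.toRatAlgebra

open Pool.Agent.Y158.KL (lam Kl V Kum)
open Pool.Agent.Y158.K2 (Dat)
open Pool.Agent.Y158.FQ
open Pool.Agent.Y158.GR (DecL exists_decL given_mem given_val exists_eB)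

section

variable {K : Type} [Field K] [NumberField K] {ℓ : ℕ}
  [hp : Fact ℓ.Prime] [hK : IsCyclotomicExtension {ℓ} ℚ K] {ζ : K} (hζ : IsPrimitiveRoot ζ ℓ)
  {F F' Ω B : Type} [Field F] [Field F'] [Field Ω] [Field B] [Algebra ℚ F] [Algebra F Ω]
  [Algebra ℚ Ω] [Algebra ℚ B] [IsScalarTower ℚ F Ω] [IsAlgClosed Ω] [Algebra.IsAlgebraic F Ω]
  [Algebra ℚ K] [Algebra K F'] [Algebra F' Ω] [Algebra K Ω] [IsScalarTower K F' Ω] [Algebra K B]
  [IsScalarTower ℚ K B] [IsScalarTower ℚ K Ω] [IsAlgClosure ℚ B]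
  {C : Type} [Field C] [Algebra (Kl hζ) C] [Algebra ℚ C] [Algebra K C] [IsScalarTower K (Kl hζ) C]
  [IsScalarTower ℚ K C] [IsAlgClosure (Kl hζ) C]

include hK hζ in
/-- the main step, with the field `F' ⊇ F K` -/
theorem absd [Algebra.IsAlgebraic ℚ K] (hodd : Odd ℓ) (hcore : CoreAt ℓ K ζ hζ) (u w : Ω)
    (hx : Transcendental ℚ u) (hF : Algebra.IsAlgebraic (IntermediateField.adjoin ℚ {u}) Ω)
    (huw : u ^ ℓ + w ^ ℓ = 1)
    (N : IntermediateField F Ω) (N' : IntermediateField F' Ω) (hNN' : ∀ z, z ∈ N ↔ z ∈ N')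
    (hN : ∀ z ∈ geomPro ℓ ℚ (IntermediateField.adjoin ℚ {u, w}) Ω, z ∈ N)
    (s : GalSection ℚ F N B) (p : Plc ℚ N C) (hpv : s.GivenBy (Kl hζ) p)
    (hKB : ∀ c : K, ((s.j (algebraMap K B c) : N) : Ω) = algebraMap K Ω c)
    (hKC : ∀ c : K, p.val (s.j (algebraMap K B c)) (algebraMap K C c))
    (hfix : ∀ (r : F') (g : B ≃ₐ[K] B) (z : N), (z : Ω) = algebraMap F' Ω r →
      s.s (g.restrictScalars ℚ) z = z)
    (X Y : F') (hX : algebraMap F' Ω X = u) (hY : algebraMap F' Ω Y = w)
    (U W : N) (hU : (U : Ω) = u) (hW : (W : Ω) = w)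
    (hnU : ∀ t : Kl hζ, p.val U (algebraMap (Kl hζ) C t) → Near hζ t)
    (hnW : ∀ t : Kl hζ, p.val W (algebraMap (Kl hζ) C t) → Near hζ t) :
    Disc hζ p U W := by
  haveI : IsAlgClosure K B := ⟨IsAlgClosure.isAlgClosed ℚ,
    haveI : Algebra.IsAlgebraic ℚ B := IsAlgClosure.isAlgebraic
    Algebra.IsAlgebraic.tower_top (K := ℚ) K⟩
  haveI : Algebra.IsAlgebraic ℚ B := IsAlgClosure.isAlgebraic
  -- the fields are algebraic
  let R : IntermediateField ℚ Ω :=
    { (IntermediateField.adjoin K {algebraMap F' Ω X}).toSubfield with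
      algebraMap_mem' := fun q => by
        change algebraMap ℚ Ω q ∈ IntermediateField.adjoin K {algebraMap F' Ω X}
        rw [IsScalarTower.algebraMap_apply ℚ K Ω]
        exact IntermediateField.algebraMap_mem _ _ }
  have hR : Algebra.IsAlgebraic R Ω := by
    refine alg_over (F := Ω) hF R ?_
    change u ∈ IntermediateField.adjoin K {algebraMap F' Ω X}
    rw [← hX]
    exact IntermediateField.subset_adjoin K _ (by simp)
  have hRmem : ∀ z ∈ R, ∃ z' : IntermediateField.adjoin K {X}, algebraMap F' Ω z' = z := by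
    intro z hz
    have hz1 : z ∈ IntermediateField.adjoin K {algebraMap F' Ω X} := hz
    have h2 := IntermediateField.adjoin_map K {X} (IsScalarTower.toAlgHom K F' Ω)
    rw [Set.image_singleton] at h2
    have hz2 : z ∈ IntermediateField.adjoin K {(IsScalarTower.toAlgHom K F' Ω) X} := hz1
    rw [← h2] at hz2
    obtain ⟨z', hz', hz''⟩ := hz2
    exact ⟨⟨z', hz'⟩, hz''⟩
  have hEΩ : Algebra.IsAlgebraic (IntermediateField.adjoin K {X}) Ω := by
    choose f hf using fun z : R => hRmem z z.2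
    have hinj := (algebraMap (IntermediateField.adjoin K {X}) Ω).injective
    have hf' : ∀ z : R, algebraMap (IntermediateField.adjoin K {X}) Ω (f z) = z := hf
    let i : R →+* IntermediateField.adjoin K {X} :=
      { toFun := f
        map_one' := hinj (by rw [hf', map_one]; rfl)
        map_mul' := fun a b => hinj (by rw [hf', map_mul, hf', hf']; rfl)
        map_zero' := hinj (by rw [hf', map_zero]; rfl)
        map_add' := fun a b => hinj (by rw [hf', map_add, hf', hf']; rfl) }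
    refine ⟨fun z => ?_⟩
    obtain ⟨q, hq, hqz⟩ := Algebra.IsAlgebraic.isAlgebraic (R := R) z
    refine ⟨q.map i, (Polynomial.map_ne_zero_iff i.injective).2 hq, ?_⟩
    rw [aeval_def, eval₂_map]
    have h3 : (algebraMap (IntermediateField.adjoin K {X}) Ω).comp i = algebraMap R Ω :=
      RingHom.ext fun z => hf' z
    rw [h3]
    exact hqz
  have hEF : Algebra.IsAlgebraic (IntermediateField.adjoin K {X}) F' :=
    Algebra.IsAlgebraic.tower_bot (IntermediateField.adjoin K {X}) F' Ω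
  haveI hF'Ω : Algebra.IsAlgebraic F' Ω :=
    Algebra.IsAlgebraic.tower_top (K := IntermediateField.adjoin K {X}) F'
  have hXt : Transcendental K X := by
    intro h
    have h1 : IsAlgebraic K (algebraMap F' Ω X) := h.algebraMap
    have h2 : IsAlgebraic ℚ (algebraMap F' Ω X) := h1.restrictScalars ℚ
    rw [hX] at h2
    exact hx h2
  -- the extension of the base field
  let e : N ≃+* N' :=
    { toFun := fun z => ⟨(z : Ω), (hNN' _).1 z.2⟩
      invFun := fun z => ⟨(z : Ω), (hNN' _).2 z.2⟩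
      left_inv := fun z => rfl
      right_inv := fun z => rfl
      map_mul' := fun _ _ => rfl
      map_add' := fun _ _ => rfl }
  have he : ∀ z : N, ((e z : N') : Ω) = (z : Ω) := fun z => rfl
  have hgp : ∀ z, z ∈ geomPro ℓ K (IntermediateField.adjoin K {X, Y}) Ω ↔
      z ∈ geomPro ℓ ℚ (IntermediateField.adjoin ℚ {u, w}) Ω := by
    exact geomPro_base (c := 1) (c' := 1) (one_mem _) (one_mem _) one_ne_zero one_ne_zero
      (by rw [one_mul]; exact hX) (by rw [one_mul]; exact hY)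
  have hinjF : Function.Injective (algebraMap F' Ω) := (algebraMap F' Ω).injective
  have hXe : e.symm (algebraMap F' N' X) = U := Subtype.ext (hX.trans hU.symm)
  have hYe : e.symm (algebraMap F' N' Y) = W := Subtype.ext (hY.trans hW.symm)
  obtain ⟨t, ht, h1⟩ := t_BGEN ℓ K ζ hζ hodd hcore F' Ω B C X Y hXt hEF (by
      apply hinjF
      rw [map_add, map_pow, map_pow, hX, hY, map_one]
      exact huw) N' (fun z hz => (hNN' _).1 (hN z ((hgp z).1 hz)))
    (extSec e he s hKB hfix) (extPlc e he s p hKB hKC) (extGiven e he s p hKB hKC hfix (Kl hζ) hpv)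
    (fun t ht => hnU t (by
      rw [extPlc_val, hXe] at ht
      exact ht)) (fun t ht => hnW t (by
      rw [extPlc_val, hYe] at ht
      exact ht))
  refine ⟨t, ht, ?_⟩
  rw [extPlc_val, extPlc_val, extPlc_val, map_inv₀, hXe, hYe] at h1
  exact h1

end

section

variable {K : Type} [Field K] [NumberField K] {ℓ : ℕ}
  [hp : Fact ℓ.Prime] [hK : IsCyclotomicExtension {ℓ} ℚ K] {ζ : K} (hζ : IsPrimitiveRoot ζ ℓ)
  {F Ω B : Type} [Field F] [Field Ω] [Field B] [Algebra ℚ F] [Algebra F Ω]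
  [Algebra ℚ Ω] [Algebra ℚ B] [IsScalarTower ℚ F Ω] [IsAlgClosed Ω] [Algebra.IsAlgebraic F Ω]
  [IsAlgClosure ℚ B]
  {C : Type} [Field C] [Algebra (Kl hζ) C] [Algebra ℚ C] [IsAlgClosure (Kl hζ) C]

include hK hζ in
/-- the theorem, over `ℚ` -/
theorem mainQ [Algebra.IsAlgebraic ℚ B] (hodd : Odd ℓ) (hcore : CoreAt ℓ K ζ hζ)
    (N : IntermediateField F Ω) (U W : N) (hx : Transcendental ℚ (U : Ω))
    (hF : Algebra.IsAlgebraic (IntermediateField.adjoin ℚ {(U : Ω)}) Ω)
    (huw : U ^ ℓ + W ^ ℓ = 1)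
    (hN : ∀ z ∈ geomPro ℓ ℚ (IntermediateField.adjoin ℚ {(U : Ω), (W : Ω)}) Ω, z ∈ N)
    (s : GalSection ℚ F N B) (hUs : ∀ g, s.s g U = U) (hWs : ∀ g, s.s g W = W)
    (p : Plc ℚ N C) (hpv : s.GivenBy (Kl hζ) p)
    (hnU : ∀ t : Kl hζ, p.val U (algebraMap (Kl hζ) C t) → Near hζ t)
    (hnW : ∀ t : Kl hζ, p.val W (algebraMap (Kl hζ) C t) → Near hζ t) :
    Disc hζ p U W := by
  haveI hCac : IsAlgClosed C := IsAlgClosure.isAlgClosed (Kl hζ)
  haveI : IsScalarTower ℚ (Kl hζ) C := IsScalarTower.of_algebraMap_eq' (Subsingleton.elim _ _)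
  haveI : Algebra.IsAlgebraic ℚ K := Algebra.IsAlgebraic.of_finite ℚ K
  -- the embedding of `K` in `B`
  obtain ⟨eB, heB⟩ := exists_eB (K := ℚ) (Ω := C) (p.iot s.j)
  have hmemC : ∀ c : K, toC hζ C c ∈ algebraicClosure ℚ C := by
    intro c
    rw [mem_algebraicClosure_iff]
    obtain ⟨q, hq, hqc⟩ := Algebra.IsAlgebraic.isAlgebraic (R := ℚ) c
    refine ⟨q, hq, ?_⟩
    rw [aeval_def] at hqc ⊢
    have h1 : algebraMap ℚ C = (toC hζ C).comp (algebraMap ℚ K) := Subsingleton.elim _ _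
    rw [h1, ← hom_eval₂, hqc, map_zero]
  let f : K →+* B := (eB.symm : algebraicClosure ℚ C →+* B).comp
    ((toC hζ C).codRestrict (algebraicClosure ℚ C) hmemC)
  have hf : ∀ c, p.iot s.j (f c) = toC hζ C c := by
    intro c
    rw [← heB]
    change ((eB (eB.symm ((toC hζ C).codRestrict (algebraicClosure ℚ C) hmemC c)) :
      algebraicClosure ℚ C) : C) = _
    rw [eB.apply_symm_apply]
    rfl
  letI iKB : Algebra K B := f.toAlgebra
  haveI : IsScalarTower ℚ K B := IsScalarTower.of_algebraMap_eq' (Subsingleton.elim _ _)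
  letI iKΩ : Algebra K Ω := (((algebraMap N Ω).comp (s.j : B →+* N)).comp f).toAlgebra
  haveI : IsScalarTower ℚ K Ω := IsScalarTower.of_algebraMap_eq' (Subsingleton.elim _ _)
  letI iKC : Algebra K C := (toC hζ C).toAlgebra
  haveI : IsScalarTower ℚ K C := IsScalarTower.of_algebraMap_eq' (Subsingleton.elim _ _)
  haveI : IsScalarTower K (Kl hζ) C := IsScalarTower.of_algebraMap_eq fun _ => rfl
  obtain ⟨S, hS⟩ : ∃ S : Set Ω, S = Set.range (algebraMap K Ω) ∪ {(U : Ω), (W : Ω)} := ⟨_, rfl⟩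
  have hSK : ∀ r : K, algebraMap K Ω r ∈ S := fun r => by
    rw [hS]; exact Or.inl ⟨r, rfl⟩
  have hSU : (U : Ω) ∈ S := by rw [hS]; exact Or.inr (by simp)
  have hSW : (W : Ω) ∈ S := by rw [hS]; exact Or.inr (by simp)
  let F' : IntermediateField F Ω := IntermediateField.adjoin F S
  have hF'K : ∀ r : K, algebraMap K Ω r ∈ F' := fun r =>
    IntermediateField.subset_adjoin F _ (hSK r)
  have hF'N : F' ≤ N := by
    rw [IntermediateField.adjoin_le_iff, hS]
    rintro z (⟨r, rfl⟩ | hz)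
    · exact (s.j (f r)).2
    · rcases hz with hz | hz
      · rw [hz]; exact U.2
      · rw [Set.mem_singleton_iff] at hz
        rw [hz]; exact W.2
  let iKF : Algebra K F' := ((algebraMap K Ω).codRestrict F' hF'K).toAlgebra
  haveI : IsScalarTower K F' Ω := IsScalarTower.of_algebraMap_eq fun _ => rfl
  have hfix : ∀ (r : F') (g : B ≃ₐ[K] B) (z : N), (z : Ω) = algebraMap F' Ω r →
      s.s (g.restrictScalars ℚ) z = z := by
    intro r g z hz
    let T : Subfield Ω := Subfield.map (algebraMap N Ω)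
      (RingHom.eqLocusField ((s.s (g.restrictScalars ℚ) : N ≃ₐ[F] N) : N →+* N) (RingHom.id N))
    have hT : ∀ t : N, s.s (g.restrictScalars ℚ) t = t → (t : Ω) ∈ T := fun t ht => ⟨t, ht, rfl⟩
    have h1 : (r : Ω) ∈ T := by
      refine adjoin_le_sub (T := T) (fun q => ?_) (fun t ht => ?_) _ r.2
      · exact hT (algebraMap F N q) ((s.s (g.restrictScalars ℚ)).commutes q)
      · rw [hS] at ht
        rcases ht with ⟨q, rfl⟩ | ht
        · refine hT (s.j (f q)) ?_
          rw [s.sec]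
          congr 1
          exact g.commutes q
        · rcases ht with ht | ht
          · rw [ht]; exact hT U (hUs _)
          · rw [Set.mem_singleton_iff] at ht
            rw [ht]; exact hT W (hWs _)
    obtain ⟨t, ht, htr⟩ := h1
    have h2 : t = z := Subtype.ext (htr.trans hz.symm)
    rw [← h2]
    exact ht
  exact absd (F' := F') hζ hodd hcore (U : Ω) (W : Ω) hx hF (by
      have h3 := congrArg (algebraMap N Ω) huw
      exact h3) N
    (IntermediateField.extendScalars hF'N)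
    (fun z => (IntermediateField.mem_extendScalars hF'N).symm) hN
    s p hpv (fun c => rfl) (fun c => by
      have h3 : p.val (s.j (f c)) (p.iot s.j (f c)) := Pool.Agent.Y158.GR.iot_val s p (f c)
      rw [hf] at h3
      exact h3) hfix ⟨(U : Ω), IntermediateField.subset_adjoin F _ hSU⟩
      ⟨(W : Ω), IntermediateField.subset_adjoin F _ hSW⟩ rfl rfl U W rfl rfl hnU hnW

end

end Pool.Agent.K3h1.SX
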