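import Pool.Agent.K3h1.SX.Core
import Pool.Agent.K3h1.SX.OverQ
import Pool.Agent.K3h1.SX.Near
import Pool.Agent.Y978.WQ.CYC

/-!
# Project SX: the theorem
-/

set_option autoImplicit false
set_option linter.all false

open Polynomial FF Pool.Agent.Y157.PS Pool.Agent.TH954 IsDedekindDomain NumberField

namespace Pool.Agent.K3h1.SX

open Pool.Agent.Y158.KL (lam Kl V Kum cm)
open Pool.Agent.Y158.FQ (Qc given_up)
open Pool.Agent.Y158.GR (DecL exists_decL given_mem given_val exists_eB)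
open Pool.Agent.Y678.FQ (alg)

section

variable {K : Type} [Field K] [NumberField K] {ℓ : ℕ}
  [hp : Fact ℓ.Prime] [hK : IsCyclotomicExtension {ℓ} ℚ K] {ζ : K} (hζ : IsPrimitiveRoot ζ ℓ)
  {F Ω B : Type} [Field F] [Field Ω] [Field B] [Algebra ℚ F] [Algebra F Ω]
  [Algebra ℚ Ω] [Algebra ℚ B] [IsScalarTower ℚ F Ω] [IsAlgClosed Ω] [Algebra.IsAlgebraic F Ω]
  [IsAlgClosure ℚ B]
  {C : Type} [Field C] [Algebra (Kl hζ) C] [Algebra ℚ C] [hC : IsAlgClosure (Kl hζ) C]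

include hC in
/-- an element of `K_λ` which is fixed is in `ℚ_ℓ` -/
theorem mem_Qc {t : Kl hζ}
    (hτ : ∀ τ : C ≃ₐ[Qc (lam hζ)] C, τ (algebraMap (Kl hζ) C t) = algebraMap (Kl hζ) C t) :
    t ∈ Qc (lam hζ) := by
  haveI h1 : Algebra.IsAlgebraic (Qc (lam hζ)) (Kl hζ) := alg hζ
  haveI h2 : Algebra.IsAlgebraic (Kl hζ) C := hC.isAlgebraic
  haveI h3 : IsAlgClosed C := hC.isAlgClosed
  haveI h4 : Algebra.IsAlgebraic (Qc (lam hζ)) C := Algebra.IsAlgebraic.trans _ (Kl hζ) _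
  haveI h5 : IsAlgClosure (Qc (lam hζ)) C := ⟨h3, h4⟩
  haveI h6 : Normal (Qc (lam hζ)) C := IsAlgClosure.normal _ _
  haveI h7 : CharZero (Kl hζ) := charZero_of_injective_algebraMap (cm hζ).injective
  haveI h8 : IsGalois (Qc (lam hζ)) C := ⟨⟩
  have h9 : algebraMap (Kl hζ) C t ∈ (⊥ : IntermediateField (Qc (lam hζ)) C) := by
    rw [InfiniteGalois.mem_bot_iff_fixed]
    intro τ
    exact hτ τ
  obtain ⟨q, hq⟩ := IntermediateField.mem_bot.1 h9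
  have h10 : (q : Kl hζ) = t := (algebraMap (Kl hζ) C).injective hq
  rw [← h10]
  exact q.2

/-- the values of the fixed elements are fixed -/
theorem val_fixed (N : IntermediateField F Ω) (s : GalSection ℚ F N B) (p : Plc ℚ N C)
    (hpv : s.GivenBy (Qc (lam hζ)) p) (U : N) (hUs : ∀ g, s.s g U = U) {t : Kl hζ}
    (ht : p.val U (algebraMap (Kl hζ) C t)) : t ∈ Qc (lam hζ) := by
  haveI : Algebra.IsAlgebraic ℚ B := IsAlgClosure.isAlgebraic
  haveI : Normal ℚ B := IsAlgClosure.normal ℚ B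
  letI iQ : Algebra ℚ (Qc (lam hζ)) :=
    ((algebraMap ℚ ((lam hζ).adicCompletion K)).codRestrict (Qc (lam hζ))
      (fun q => Subfield.le_topologicalClosure _ ⟨q, rfl⟩)).toAlgebra
  haveI : @IsScalarTower ℚ (Qc (lam hζ)) C iQ.toSMul Algebra.toSMul Algebra.toSMul :=
    IsScalarTower.of_algebraMap_eq' (Subsingleton.elim _ _)
  refine mem_Qc (C := C) hζ fun τ => ?_
  obtain ⟨σ, hσ⟩ := exists_decL (L := Qc (lam hζ)) (p.iot s.j) τ
  have h3 := given_val hpv hσ ht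
  rw [hUs σ] at h3
  exact h3.unique ht

include hK hζ in
theorem mainFin (h5 : 5 ≤ ℓ) (cy : Pool.Agent.Y546.WQ.Cyc ℓ K) (hcy : cy.z = ζ)
    (hirr : ℓ - 3 ∉ Pool.Agent.Y546.WQ.irr ℓ ∨
      ((Pool.Agent.Y546.WQ.irr ℓ).card + 1) * ((Pool.Agent.Y546.WQ.irr ℓ).card + 2) + 3 ≤ ℓ)
    (N : IntermediateField F Ω) (U W : N) (hx : Transcendental ℚ (U : Ω))
    (hF : Algebra.IsAlgebraic (IntermediateField.adjoin ℚ {(U : Ω)}) Ω)
    (huw : U ^ ℓ + W ^ ℓ = 1)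
    (hN : ∀ z ∈ geomPro ℓ ℚ (IntermediateField.adjoin ℚ {(U : Ω), (W : Ω)}) Ω, z ∈ N)
    (s : GalSection ℚ F N B) (hUs : ∀ g, s.s g U = U) (hWs : ∀ g, s.s g W = W)
    (p : Plc ℚ N C) (hpv : s.GivenBy (Qc (lam hζ)) p) :
    ∃ t : Kl hζ, t ∈ Qc (lam hζ) ∧ V hζ t < 1 ∧ (p.val U (algebraMap (Kl hζ) C t) ∨
      p.val W (algebraMap (Kl hζ) C t) ∨ p.val U⁻¹ (algebraMap (Kl hζ) C t)) := by
  haveI : Algebra.IsAlgebraic ℚ B := IsAlgClosure.isAlgebraic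
  have hp2 : ℓ ≠ 2 := by omega
  have hodd : Odd ℓ := hp.out.odd_of_ne_two hp2
  have hcore : CoreAt ℓ K ζ hζ := coreAt ℓ K ζ hζ h5 hirr cy hcy
  have hpK : s.GivenBy (Kl hζ) p := given_up (L := Qc (lam hζ)) hpv
  obtain ⟨t, ht, h⟩ := mainQ hζ hodd hcore N U W hx hF huw hN s hUs hWs p hpK
    (fun t ht => near_of_mem hζ (val_fixed hζ N s p hpv U hUs ht))
    (fun t ht => near_of_mem hζ (val_fixed hζ N s p hpv W hWs ht))
  refine ⟨t, ?_, ht, h⟩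
  rcases h with h | h | h
  · exact val_fixed hζ N s p hpv U hUs h
  · exact val_fixed hζ N s p hpv W hWs h
  · exact val_fixed hζ N s p hpv U⁻¹ (fun g => by rw [map_inv₀, hUs]) h

end

end Pool.Agent.K3h1.SX
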