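import Pool.Agent.K3h1.SX.Stm

/-!
# Project SX: sections over the cyclotomic field
-/

set_option autoImplicit false
set_option linter.all false

open Polynomial FF Pool.Agent.Y157.PS Pool.Agent.TH954 IsDedekindDomain NumberField

namespace Pool.Agent.K3h1.SX

open Pool.Agent.Y158.KL (lam Kl V Kum)
open Pool.Agent.Y158.K2 (Dat)
open Pool.Agent.Y158.GR

section

variable {K : Type} [Field K] [NumberField K] {ℓ : ℕ}
  [hp : Fact ℓ.Prime] [hK : IsCyclotomicExtension {ℓ} ℚ K] {ζ : K} (hζ : IsPrimitiveRoot ζ ℓ)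
  {F Ω : Type} [Field F] [Field Ω] [Algebra K F] [Algebra F Ω] [Algebra K Ω]
  [IsScalarTower K F Ω] [IsAlgClosed Ω] [Algebra.IsAlgebraic F Ω]
  {C : Type} [Field C] [Algebra (Kl hζ) C] [Algebra K C] [IsScalarTower K (Kl hζ) C]
  [IsAlgClosure (Kl hζ) C]

include hK hζ in
theorem ferKd (hodd : Odd ℓ) (hcore : CoreAt ℓ K ζ hζ) (x y : F)
    (hx : Transcendental K x)
    (hF : IntermediateField.adjoin K {x, y} = (⊤ : IntermediateField K F))
    (hxy : x ^ ℓ + y ^ ℓ = 1) (s : GalSection K F (geomPro ℓ K F Ω) (algebraicClosure K Ω))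
    (hj : ∀ z, ((s.j z : geomPro ℓ K F Ω) : Ω) = (z : Ω)) (p : Plc K (geomPro ℓ K F Ω) C)
    (hpv : s.GivenBy (Kl hζ) p)
    (hnx : ∀ t : Kl hζ, p.val (algebraMap F (geomPro ℓ K F Ω) x) (algebraMap (Kl hζ) C t) →
      Near hζ t)
    (hny : ∀ t : Kl hζ, p.val (algebraMap F (geomPro ℓ K F Ω) y) (algebraMap (Kl hζ) C t) →
      Near hζ t) :
    Disc hζ p (algebraMap F (geomPro ℓ K F Ω) x) (algebraMap F (geomPro ℓ K F Ω) y) := by
  classical
  have hac : IsAlgClosure K (algebraicClosure K Ω) := inferInstance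
  have hkb : IsAlgClosed (algebraicClosure K Ω) := hac.1
  have hch : CharZero (algebraicClosure K Ω) :=
    charZero_of_injective_algebraMap (algebraMap K (algebraicClosure K Ω)).injective
  have hcz : CharZero (Kl hζ) :=
    charZero_of_injective_algebraMap (Pool.Agent.Y158.KL.cm hζ).injective
  have hkalg : Algebra.IsAlgebraic K (algebraicClosure K Ω) := inferInstance
  have hnorm : Normal K (algebraicClosure K Ω) := IsAlgClosure.normal K _
  obtain ⟨R, M, i1, i2, i3, i4, i5, i6, x', Y, eqv, hC, hc, hx', hy'⟩ :=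
    ferSetup (Ω := Ω) hζ hodd x y hx hF hxy
  have hcompat := compat_of s hj
  have hSec := sec_of (neg_ne_zero.2 one_ne_zero) hc hx' hy' s.s s.cont hcompat
  have hs' : ∀ σ z, eqv (conjSec eqv s.s σ z) = s.s σ (eqv z) := fun σ z =>
    conjSec_apply eqv s.s σ z
  let φ : fixL s →+* M := (eqv.symm : geomPro ℓ K F Ω →+* M).comp (algebraMap (fixL s) _)
  have hφ : ∀ l : fixL s, eqv (φ l) = (l : geomPro ℓ K F Ω) := fun l => eqv.apply_symm_apply _
  have hFx : Fx (κ := algebraicClosure K Ω) (conjSec eqv s.s) φ := by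
    refine ⟨fun c => ?_, fun l σ => ?_, fun z hz => ?_⟩
    · apply eqv.injective
      apply Subtype.ext
      rw [hφ, hc]
      rfl
    · apply eqv.injective
      rw [hs', hφ]
      exact l.2 σ
    · refine ⟨⟨eqv z, fun σ => by rw [← hs', hz σ]⟩, ?_⟩
      apply eqv.injective
      rw [hφ]
  have hkum := kumG hζ hC (Act.of_sec hSec) hFx
  have hdat := datG hζ hC (fun v V hv hV => good_mu hζ hv hV) (neg_ne_zero.2 one_ne_zero)
    (fun v V hv hV σ hσ => by rw [map_neg, map_one]) hSec hFx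
  have hXY : (⟨_, F_fixL s x⟩ : fixL s) ^ ℓ + (⟨_, F_fixL s y⟩ : fixL s) ^ ℓ = 1 := by
    apply Subtype.ext
    change (algebraMap F (geomPro ℓ K F Ω) x) ^ ℓ + (algebraMap F (geomPro ℓ K F Ω) y) ^ ℓ = 1
    rw [← map_pow, ← map_pow, ← map_add, hxy, map_one]
  obtain ⟨t, ht, h⟩ := hcore (fixL s) hkum hdat (plcL hpv) _ _ hXY
    (fun t ht => hnx t (plcL_val ht)) (fun t ht => hny t (plcL_val ht))
  refine ⟨t, ht, ?_⟩
  rcases h with h | h | h
  · exact Or.inl (plcL_val h)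
  · exact Or.inr (Or.inl (plcL_val h))
  · exact Or.inr (Or.inr (plcL_val h))

end

section main

variable {K : Type} [Field K] [NumberField K] {ℓ : ℕ}
  [hp : Fact ℓ.Prime] [hK : IsCyclotomicExtension {ℓ} ℚ K] {ζ : K} (hζ : IsPrimitiveRoot ζ ℓ)
  {F Ω B : Type} [Field F] [Field Ω] [Field B] [Algebra K F] [Algebra F Ω] [Algebra K Ω]
  [Algebra K B] [IsScalarTower K F Ω] [IsAlgClosed Ω] [Algebra.IsAlgebraic F Ω]
  [IsAlgClosure K B]
  {C : Type} [Field C] [Algebra (Kl hζ) C] [Algebra K C] [IsScalarTower K (Kl hζ) C]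
  [IsAlgClosure (Kl hζ) C]

include hK hζ in
theorem genMaind (hodd : Odd ℓ) (hcore : CoreAt ℓ K ζ hζ) {m : ℕ}
    (hm : m ≠ 0) (hm1 : m = 1) (x y : F) (hx : Transcendental K x)
    (hFx : Algebra.IsAlgebraic (IntermediateField.adjoin K {x}) F)
    (hxy : x ^ (ℓ * m) + y ^ (ℓ * m) = 1) (N : IntermediateField F Ω)
    (hN : ∀ z ∈ geomPro ℓ K (IntermediateField.adjoin K {x ^ m, y ^ m}) Ω, z ∈ N)
    (s : GalSection K F N B) (p : Plc K N C) (hpv : s.GivenBy (Kl hζ) p)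
    (hnx : ∀ t : Kl hζ, p.val (algebraMap F N x) (algebraMap (Kl hζ) C t) → Near hζ t)
    (hny : ∀ t : Kl hζ, p.val (algebraMap F N y) (algebraMap (Kl hζ) C t) → Near hζ t) :
    Disc hζ p (algebraMap F N x) (algebraMap F N y) := by
  obtain ⟨F₀, hF₀⟩ : ∃ F₀ : IntermediateField K F,
    F₀ = IntermediateField.adjoin K {x ^ m, y ^ m} := ⟨_, rfl⟩
  have hxm : x ^ m ∈ F₀ := by
    rw [hF₀]; exact IntermediateField.subset_adjoin K _ (by simp)
  have hym : y ^ m ∈ F₀ := by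
    rw [hF₀]; exact IntermediateField.subset_adjoin K _ (by simp)
  rw [← hF₀] at hN
  have hmpos : 0 < m := Nat.pos_of_ne_zero hm
  haveI hFF : Algebra.IsAlgebraic F₀ F := alg_sub hFx F₀ hm hxm
  haveI hFΩ : Algebra.IsAlgebraic F₀ Ω := Algebra.IsAlgebraic.trans F₀ F Ω
  have htop : IntermediateField.adjoin K {(⟨x ^ m, hxm⟩ : F₀), ⟨y ^ m, hym⟩} =
      (⊤ : IntermediateField K F₀) := by
    apply IntermediateField.map_injective F₀.val
    rw [IntermediateField.adjoin_map, Set.image_pair, ← AlgHom.fieldRange_eq_map,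
      IntermediateField.fieldRange_val]
    exact hF₀.symm
  have hx0 : Transcendental K (⟨x ^ m, hxm⟩ : F₀) := by
    rw [← transcendental_algebraMap_iff (R := K) (A := F) (algebraMap F₀ F).injective]
    exact fun h => hx (IsAlgebraic.of_pow hmpos h)
  have hxy0 : (⟨x ^ m, hxm⟩ : F₀) ^ ℓ + (⟨y ^ m, hym⟩ : F₀) ^ ℓ = 1 := by
    apply Subtype.ext
    change (x ^ m) ^ ℓ + (y ^ m) ^ ℓ = 1
    rw [← pow_mul, ← pow_mul, mul_comm m ℓ, hxy]
  have halg : Algebra.IsAlgebraic (IntermediateField.adjoin K {(⟨x ^ m, hxm⟩ : F₀)}) F₀ :=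
    alg_of_eqn hp.out.pos (1 - X ^ ℓ) 1 one_ne_zero (⟨x ^ m, hxm⟩ : F₀) ⟨y ^ m, hym⟩ (by
      rw [map_one, one_mul, map_sub, map_pow, aeval_X, map_one]
      linear_combination hxy0) htop
  haveI : IsAlgClosure F₀ Ω := ⟨inferInstance, inferInstance⟩
  obtain ⟨-, hst⟩ := a_inrt ℓ K F₀ Ω (⟨x ^ m, hxm⟩ : F₀) hx0 halg
  -- the restriction
  obtain ⟨Φ, hΦc, hΦ⟩ := Pool.Agent.Y674.PS.restr' (F₀ := F₀) (Ω₀ := Ω) (F := F) (Ω := Ω)
    (algebraMap F₀ F) (RingHom.id Ω) (fun a => rfl) (geomPro ℓ K F₀ Ω) N hN (fun σ z hz =>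
      ⟨σ z, hst (σ.restrictScalars F₀) z hz, rfl⟩)
  have hΦ' : ∀ (e : N ≃ₐ[F] N) (z : N) (w : geomPro ℓ K F₀ Ω), (w : Ω) = (z : Ω) →
      ((Φ e w : geomPro ℓ K F₀ Ω) : Ω) = ((e z : N) : Ω) := hΦ
  -- the algebraic closures
  haveI : IsScalarTower K N Ω := IsScalarTower.of_algebraMap_eq fun _ => rfl
  obtain ⟨eB, heB⟩ := exists_eB (Ω := Ω) ((IsScalarTower.toAlgHom K N Ω).comp s.j)
  have heB' : ∀ b, ((s.j b : N) : Ω) = ((eB b : algebraicClosure K Ω) : Ω) := fun b => (heB b).symm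
  let j₀ : algebraicClosure K Ω →ₐ[K] geomPro ℓ K F₀ Ω :=
    { toFun := fun z => ⟨(z : Ω), const_geomPro ℓ K z⟩
      map_one' := rfl
      map_mul' := fun _ _ => rfl
      map_zero' := rfl
      map_add' := fun _ _ => rfl
      commutes' := fun c => rfl }
  have hj₀ : ∀ z, ((j₀ z : geomPro ℓ K F₀ Ω) : Ω) = (z : Ω) := fun z => rfl
  let s₀ : GalSection K F₀ (geomPro ℓ K F₀ Ω) (algebraicClosure K Ω) :=
    { j := j₀
      s := (Φ.comp s.s).comp (AlgEquiv.autCongr eB.symm : _ →* _)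
      cont := (hΦc.comp s.cont).comp (Pool.Agent.Y674.PS.conj_cont eB.symm)
      sec := by
        intro σ z
        apply Subtype.ext
        have h1 := hΦ' (s.s (AlgEquiv.autCongr eB.symm σ)) (s.j (eB.symm z)) (j₀ z) (by
          rw [heB', eB.apply_symm_apply, hj₀])
        have h2 : (AlgEquiv.autCongr eB.symm σ) (eB.symm z) = eB.symm (σ z) := by
          change eB.symm (σ (eB (eB.symm z))) = _
          rw [eB.apply_symm_apply]
        rw [s.sec, h2, heB', eB.apply_symm_apply] at h1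
        exact h1 }
  have hs₀ : ∀ σ (z : N) (w : geomPro ℓ K F₀ Ω), (w : Ω) = (z : Ω) →
      ((s₀.s σ w : geomPro ℓ K F₀ Ω) : Ω) =
        ((s.s (AlgEquiv.autCongr eB.symm σ) z : N) : Ω) := fun σ z w h => hΦ' _ z w h
  -- the place
  let i : geomPro ℓ K F₀ Ω →+* N :=
    { toFun := fun w => ⟨(w : Ω), hN _ w.2⟩
      map_one' := rfl
      map_mul' := fun _ _ => rfl
      map_zero' := rfl
      map_add' := fun _ _ => rfl }
  have hi : ∀ w, ((i w : N) : Ω) = (w : Ω) := fun w => rfl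
  have hiK : ∀ c : K, i (algebraMap K (geomPro ℓ K F₀ Ω) c) = algebraMap K N c := fun c =>
    Subtype.ext rfl
  have his : ∀ σ w, i (s₀.s σ w) = s.s (AlgEquiv.autCongr eB.symm σ) (i w) := fun σ w =>
    Subtype.ext (hs₀ σ (i w) w rfl)
  have hij : ∀ z, i (j₀ z) = s.j (eB.symm z) := fun z => by
    apply Subtype.ext
    rw [hi, hj₀, heB', eB.apply_symm_apply]
  have hpv₀ : s₀.GivenBy (Kl hζ) (resPlc i hiK p) := by
    intro τ σ h w c hw
    rw [resPlc_val] at hw ⊢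
    rw [his]
    refine hpv τ _ (fun z c' hz => ?_) _ _ hw
    have h1 := h (eB z) c' (by
      rw [resPlc_val]
      change p.val (i (j₀ (eB z))) c'
      rw [hij, eB.symm_apply_apply]
      exact hz)
    rw [resPlc_val] at h1
    change p.val (i (j₀ (σ (eB z)))) (τ c') at h1
    rw [hij] at h1
    exact h1
  have hiF : ∀ z : F₀, i (algebraMap F₀ (geomPro ℓ K F₀ Ω) z) = algebraMap F N (z : F) := fun z =>
    Subtype.ext rfl
  have hmx : (x ^ m : F) = x := by rw [hm1, pow_one]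
  have hmy : (y ^ m : F) = y := by rw [hm1, pow_one]
  obtain ⟨t, ht, h⟩ := ferKd (C := C) hζ hodd hcore _ _ hx0 htop hxy0 s₀ hj₀
    (resPlc i hiK p) hpv₀ (fun t ht => hnx t (by
      rw [resPlc_val, hiF] at ht
      change p.val (algebraMap F N (x ^ m)) _ at ht
      rwa [hmx] at ht)) (fun t ht => hny t (by
      rw [resPlc_val, hiF] at ht
      change p.val (algebraMap F N (y ^ m)) _ at ht
      rwa [hmy] at ht))
  refine ⟨t, ht, ?_⟩
  rw [resPlc_val, resPlc_val, resPlc_val, map_inv₀, hiF, hiF] at h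
  change p.val (algebraMap F N (x ^ m)) _ ∨ p.val (algebraMap F N (y ^ m)) _ ∨
    p.val (algebraMap F N (x ^ m))⁻¹ _ at h
  rwa [hmx, hmy] at h

end main

theorem t_BGEN : S_BGEN := by
  intro ℓ _ K _ _ _ ζ hζ hodd hcore F Ω B C _ _ _ _ _ _ _ _ _ _ _ _ _ _ _ _ X Y hX hFX hXY N hN
    s p hpv hnx hny
  refine genMaind hζ hodd hcore (m := 1) one_ne_zero rfl X Y hX hFX ?_ N ?_ s p hpv hnx hny
  · rw [mul_one]; exact hXY
  · rw [pow_one, pow_one]; exact hN

end Pool.Agent.K3h1.SX
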