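import Pool.Agent.Y158.FQ.Fin3
import Pool.Agent.K3h1.FC.Stm

/-!
# Project SX: sections of Fermat curves of irregular exponent, statements of the parts
-/

set_option autoImplicit false
set_option linter.all false

open Polynomial FF Pool.Agent.Y157.PS Pool.Agent.TH954 IsDedekindDomain NumberField WithZero

namespace Pool.Agent.K3h1.SX

open Pool.Agent.Y158.KL (lam Kl V Kum)
open Pool.Agent.Y158.K2 (Dat)
open Pool.Agent.Y158.FQ (Qc)

section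

variable {K : Type} [Field K] [NumberField K] {ℓ : ℕ}
  [hp : Fact ℓ.Prime] [hK : IsCyclotomicExtension {ℓ} ℚ K] {ζ : K} (hζ : IsPrimitiveRoot ζ ℓ)

/-- if `t` is integral it is congruent to a rational integer modulo `ℓ` -/
def Near (t : Kl hζ) : Prop :=
  V hζ t ≤ 1 → ∃ n : ℤ, V hζ (t - (n : Kl hζ)) ≤ exp (-((ℓ - 1 : ℕ) : ℤ))

/-- one of the three values is in the residue disc of zero -/
def Disc {N : Type} [Field N] {k : Type} [Field k] [Algebra k N] {C : Type} [Field C] [Algebra k C]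
    [Algebra (Kl hζ) C] (p : Plc k N C) (X Y : N) : Prop :=
  ∃ t : Kl hζ, V hζ t < 1 ∧ (p.val X (algebraMap (Kl hζ) C t) ∨ p.val Y (algebraMap (Kl hζ) C t) ∨
    p.val X⁻¹ (algebraMap (Kl hζ) C t))

end

/-- CORE: the main step, in the fixed field of the section over `K` -/
def CoreAt (ℓ : ℕ) [Fact ℓ.Prime] (K : Type) [Field K] [NumberField K]
    [IsCyclotomicExtension {ℓ} ℚ K] (ζ : K) (hζ : IsPrimitiveRoot ζ ℓ) : Prop :=
  ∀ (L : Type) [Field L] [Algebra K L], Kum ℓ K L → Dat hζ L → ∀ P0 : Plc K L (Kl hζ),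
    ∀ X Y : L, X ^ ℓ + Y ^ ℓ = 1 → (∀ t, P0.val X t → Near hζ t) → (∀ t, P0.val Y t → Near hζ t) →
    Disc hζ P0 X Y

/-- BLIN: an element of `K` which is congruent to `A₀ + A₁ ζ` modulo `ℓ` at `λ` -/
def S_BLIN : Prop :=
  ∀ (ℓ : ℕ) [Fact ℓ.Prime] (K : Type) [Field K] [NumberField K] [IsCyclotomicExtension {ℓ} ℚ K]
    (ζ : K) (hζ : IsPrimitiveRoot ζ ℓ) (c : Pool.Agent.Y546.WQ.Cyc ℓ K) (_ : c.z = ζ) (e : K)
    (A₀ A₁ : ℤ),
    (lam hζ).valuation K (e - ((A₀ : K) + (A₁ : K) * ζ)) ≤ exp (-((ℓ - 1 : ℕ) : ℤ)) →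
    ∃ (m : ℤ) (a : ℤ[X]), ¬ (ℓ : ℤ) ∣ m ∧
      (m : K) * e = aeval ζ (Polynomial.C m * (Polynomial.C A₀ + Polynomial.C A₁ * X) +
        Polynomial.C (ℓ : ℤ) * a)

/-- BNEAR: elements of `K_λ` which are fixed by the automorphisms over `ℚ_ℓ` -/
def S_BNEAR : Prop :=
  ∀ (ℓ : ℕ) [Fact ℓ.Prime] (K : Type) [Field K] [NumberField K] [IsCyclotomicExtension {ℓ} ℚ K]
    (ζ : K) (hζ : IsPrimitiveRoot ζ ℓ) (C : Type) [Field C] [Algebra (Kl hζ) C]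
    [IsAlgClosure (Kl hζ) C] (t : Kl hζ),
    (∀ τ : C ≃ₐ[Qc (lam hζ)] C, τ (algebraMap (Kl hζ) C t) = algebraMap (Kl hζ) C t) → Near hζ t

/-- BGEN: sections over `K` -/
def S_BGEN : Prop :=
  ∀ (ℓ : ℕ) [Fact ℓ.Prime] (K : Type) [Field K] [NumberField K] [IsCyclotomicExtension {ℓ} ℚ K]
    (ζ : K) (hζ : IsPrimitiveRoot ζ ℓ), Odd ℓ → CoreAt ℓ K ζ hζ →
    ∀ (F Ω B C : Type) [Field F] [Field Ω] [Field B] [Algebra K F] [Algebra F Ω] [Algebra K Ω]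
      [Algebra K B] [IsScalarTower K F Ω] [IsAlgClosed Ω] [Algebra.IsAlgebraic F Ω]
      [IsAlgClosure K B] [Field C] [Algebra (Kl hζ) C] [Algebra K C] [IsScalarTower K (Kl hζ) C]
      [IsAlgClosure (Kl hζ) C] (X Y : F), Transcendental K X →
      Algebra.IsAlgebraic (IntermediateField.adjoin K {X}) F → X ^ ℓ + Y ^ ℓ = 1 →
      ∀ (N : IntermediateField F Ω),
      (∀ z ∈ geomPro ℓ K (IntermediateField.adjoin K {X, Y}) Ω, z ∈ N) →
      ∀ (s : GalSection K F N B) (p : Plc K N C), s.GivenBy (Kl hζ) p →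
      (∀ t : Kl hζ, p.val (algebraMap F N X) (algebraMap (Kl hζ) C t) → Near hζ t) →
      (∀ t : Kl hζ, p.val (algebraMap F N Y) (algebraMap (Kl hζ) C t) → Near hζ t) →
      Disc hζ p (algebraMap F N X) (algebraMap F N Y)

/-- BQ: sections over `ℚ` -/
def S_BQ : Prop :=
  S_BGEN → S_BNEAR →
  ∀ (ℓ : ℕ) [Fact ℓ.Prime] (K : Type) [Field K] [NumberField K] [IsCyclotomicExtension {ℓ} ℚ K]
    (ζ : K) (hζ : IsPrimitiveRoot ζ ℓ), Odd ℓ → CoreAt ℓ K ζ hζ →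
    ∀ (F Ω B C : Type) [Field F] [Field Ω] [Field B] [Algebra ℚ F] [Algebra F Ω] [Algebra ℚ Ω]
      [Algebra ℚ B] [IsScalarTower ℚ F Ω] [IsAlgClosed Ω] [Algebra.IsAlgebraic F Ω]
      [IsAlgClosure ℚ B] [Field C] [Algebra (Kl hζ) C] [Algebra ℚ C]
      [IsAlgClosure (Kl hζ) C] (X Y : F), Transcendental ℚ X →
      Algebra.IsAlgebraic (IntermediateField.adjoin ℚ {X}) F → X ^ ℓ + Y ^ ℓ = 1 →
      ∀ (N : IntermediateField F Ω),
      (∀ z ∈ geomPro ℓ ℚ (IntermediateField.adjoin ℚ {X, Y} : IntermediateField ℚ F) Ω, z ∈ N) →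
      ∀ (s : GalSection ℚ F N B) (p : Plc ℚ N C), s.GivenBy (Qc (lam hζ)) p →
      Disc hζ p (algebraMap F N X) (algebraMap F N Y)

end Pool.Agent.K3h1.SX
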