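import Pool.Agent.Y546.WQ.Stm

/-!
# Project SX: the brick BLIN
-/

set_option autoImplicit false

namespace Pool.Agent.K3h1.SX

open Polynomial IsDedekindDomain NumberField WithZero

/-- BLIN: an element of `E` which is congruent to `A₀ + A₁ ζ` modulo `p` at the prime above `p` -/
def S_BLIN' : Prop :=
  ∀ (p : ℕ) [Fact p.Prime] (E : Type) [Field E] [NumberField E] (c : Pool.Agent.Y546.WQ.Cyc p E)
    (P : HeightOneSpectrum (𝓞 E)),
    (∀ Q : HeightOneSpectrum (𝓞 E), ((p : ℕ) : 𝓞 E) ∈ Q.asIdeal → Q = P) →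
    P.valuation E (p : E) = exp (-((p - 1 : ℕ) : ℤ)) →
    ∀ (e : E) (A₀ A₁ : ℤ),
    P.valuation E (e - ((A₀ : E) + (A₁ : E) * c.z)) ≤ exp (-((p - 1 : ℕ) : ℤ)) →
    ∃ (m : ℤ) (a : ℤ[X]), ¬ (p : ℤ) ∣ m ∧
      (m : E) * e = aeval c.z (Polynomial.C m * (Polynomial.C A₀ + Polynomial.C A₁ * X) +
        Polynomial.C (p : ℤ) * a)

end Pool.Agent.K3h1.SX
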